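import Mathlib

/-!
# The unit group of the universal CP monoid is generated by the images of the symmetric groups

Let `U` be the initial CP monoid. Every unit `u` of `U` permutes the distinguished elements of two
CP structures in `𝕊(U)` with the same number of elements (`u` is a pair of binary trees with a
bijection of their leaves, so that the unit group is Thompson's group `V`). Removing a caret from
each of the two trees one finds, by induction on the number of leaves, that `u` is a product of
elements which permute the leaves of one tree.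
-/

set_option autoImplicit false

universe u

namespace Pool.Agent.Results.MP_6189ff_al.UnitsGenerated

/-! ## Definitions -/

/-- `(Φ, τ_1, …, τ_d)` is a `d`-CP structure on the monoid `M`: the map `Φ : M^d → M` is a bijection
and `τ_i Φ(m_1, …, m_d) = m_i`. -/
def IsCPStructure (M : Type u) [Monoid M] (d : ℕ) (Φ : (Fin d → M) → M) (τ : Fin d → M) : Prop :=
  Function.Bijective Φ ∧ ∀ (m : Fin d → M) (i : Fin d), τ i * Φ m = m i

/-- A CP monoid: a monoid with a `2`-CP structure `(Σ, π_1, π_2)`; here `Σ = Sg`, `π = pr`. -/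
class CPMonoid (M : Type u) extends Monoid M where
  Sg : (Fin 2 → M) → M
  pr : Fin 2 → M
  isCP : IsCPStructure M 2 Sg pr

open CPMonoid

/-- Homomorphisms of CP monoids. -/
structure CPHom (M N : Type u) [CPMonoid M] [CPMonoid N] extends M →* N where
  map_pr : ∀ i, toFun (pr i) = pr i
  map_Sg : ∀ m : Fin 2 → M, toFun (Sg m) = Sg fun i => toFun (m i)

/-- `U` is the universal CP monoid: an initial object of the category of CP monoids. -/
def IsUniversal (U : Type u) [CPMonoid U] : Prop :=
  ∀ (N : Type u) [CPMonoid N], ∃! _f : CPHom U N, True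

/-- The set `𝕊(M)` of the `d`-CP structures which are obtained from `(id, 1)` and `(Σ, π_1, π_2)` by
finitely many combinations. The equivalence `finSigmaFinEquiv` numbers the pairs `(i, j)` with
`i < s`, `j < d_i` in the lexicographic order. -/
inductive Std (M : Type u) [CPMonoid M] : (d : ℕ) → ((Fin d → M) → M) → (Fin d → M) → Prop
  | unit : Std M 1 (fun m => m 0) (fun _ => 1)
  | base : Std M 2 Sg pr
  | comb (s : ℕ) (Ψ : (Fin s → M) → M) (ρ : Fin s → M) (d : Fin s → ℕ)
      (Φ : ∀ i, (Fin (d i) → M) → M) (τ : ∀ i, Fin (d i) → M) :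
      Std M s Ψ ρ → (∀ i, Std M (d i) (Φ i) (τ i)) →
      Std M (∑ i, d i)
        (fun m => Ψ fun i => Φ i fun j => m (finSigmaFinEquiv ⟨i, j⟩))
        (fun k => τ (finSigmaFinEquiv.symm k).1 (finSigmaFinEquiv.symm k).2 *
          ρ (finSigmaFinEquiv.symm k).1)

/-- The union of the images of the maps `ψ_{Φ,τ}`, `ψ_{Φ,τ}(σ) = Φ(τ_{σ⁻¹(1)}, …, τ_{σ⁻¹(d)})`, for
the `d`-CP structures `(Φ, τ)` in `𝕊(U)` with `d ≥ 2`. -/
def images (U : Type u) [CPMonoid U] : Set Uˣ :=
  {g | ∃ (d : ℕ) (Φ : (Fin d → U) → U) (τ : Fin d → U) (σ : Equiv.Perm (Fin d)),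
    2 ≤ d ∧ Std U d Φ τ ∧ (g : U) = Φ (fun i => τ (σ⁻¹ i))}

/-! ## Proof -/

section

variable {U : Type u} [CPMonoid U]

/-- `Σ(a, b)`. -/
def sig (a b : U) : U := Sg ![a, b]

theorem pr_Sg (m : Fin 2 → U) (i : Fin 2) : pr i * Sg m = m i := isCP.2 m i

theorem pr_sig0 (a b : U) : pr 0 * sig a b = a := pr_Sg _ _
theorem pr_sig1 (a b : U) : pr 1 * sig a b = b := pr_Sg _ _

theorem Sg_pr (y : U) : Sg (fun i => pr i * y) = y := by
  obtain ⟨m, rfl⟩ := (isCP (M := U)).1.2 y
  congr 1
  funext i
  exact pr_Sg m i

theorem sig_pr (y : U) : sig (pr 0 * y) (pr 1 * y) = y := by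
  conv_rhs => rw [← Sg_pr y]
  rw [sig]
  congr 1
  funext i
  fin_cases i <;> rfl

theorem ext_pr {x y : U} (h0 : pr 0 * x = pr 0 * y) (h1 : pr 1 * x = pr 1 * y) : x = y := by
  rw [← sig_pr x, ← sig_pr y, h0, h1]

theorem sig_mul (a b c : U) : sig a b * c = sig (a * c) (b * c) := by
  apply ext_pr
  · rw [← mul_assoc, pr_sig0, pr_sig0]
  · rw [← mul_assoc, pr_sig1, pr_sig1]

/-- Members of `𝕊(U)` are CP structures. -/
theorem std_prop {d : ℕ} {Φ : (Fin d → U) → U} {τ : Fin d → U} (h : Std U d Φ τ) :
    (∀ m i, τ i * Φ m = m i) ∧ ∀ y, Φ (fun i => τ i * y) = y := by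
  induction h with
  | unit =>
    refine ⟨?_, ?_⟩
    · intro m i
      rw [one_mul, Subsingleton.elim i 0]
    · intro y
      exact one_mul y
  | base => exact ⟨pr_Sg, Sg_pr⟩
  | comb s Ψ ρ d Φ τ _ _ ih1 ih2 =>
    refine ⟨?_, ?_⟩
    · intro m k
      rw [mul_assoc, ih1.1, (ih2 _).1]
      simp
    · intro y
      have key : ∀ p : (Σ i, Fin (d i)), τ (finSigmaFinEquiv.symm (finSigmaFinEquiv p)).1
          (finSigmaFinEquiv.symm (finSigmaFinEquiv p)).2 *
          ρ (finSigmaFinEquiv.symm (finSigmaFinEquiv p)).1 * y = τ p.1 p.2 * (ρ p.1 * y) := by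
        intro p
        rw [Equiv.symm_apply_apply, mul_assoc]
      have h1 : (fun i => Φ i fun j => τ (finSigmaFinEquiv.symm (finSigmaFinEquiv ⟨i, j⟩)).1
          (finSigmaFinEquiv.symm (finSigmaFinEquiv ⟨i, j⟩)).2 *
          ρ (finSigmaFinEquiv.symm (finSigmaFinEquiv ⟨i, j⟩)).1 * y) = fun i => ρ i * y := by
        funext i
        rw [← (ih2 i).2 (ρ i * y)]
        congr 1
        funext j
        exact key ⟨i, j⟩
      exact (congrArg Ψ h1).trans (ih1.2 y)

/-- The families of the distinguished elements at the leaves of the binary trees. -/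
inductive TF (U : Type u) [CPMonoid U] : (ι : Type) → (ι → U) → Prop
  | one : TF U Unit (fun _ => 1)
  | node {ι κ : Type} {w : ι → U} {v : κ → U} : TF U ι w → TF U κ v →
      TF U (ι ⊕ κ) (Sum.elim (fun i => w i * pr 0) (fun k => v k * pr 1))
  | equiv {ι κ : Type} {w : ι → U} (e : κ ≃ ι) : TF U ι w → TF U κ (fun k => w (e k))

theorem TF.finite {ι : Type} {w : ι → U} (h : TF U ι w) : Finite ι := by
  induction h with
  | one => infer_instance
  | node _ _ ih1 ih2 => infer_instance
  | equiv e _ ih => exact Finite.of_equiv _ e.symm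

theorem TF.nonempty {ι : Type} {w : ι → U} (h : TF U ι w) : Nonempty ι := by
  induction h with
  | one => infer_instance
  | node _ _ ih1 ih2 => exact ⟨Sum.inl ih1.some⟩
  | equiv e _ ih => exact ⟨e.symm ih.some⟩

theorem TF.of_unique {ι : Type} [Unique ι] (w : ι → U) (h : ∀ i, w i = 1) : TF U ι w := by
  have h1 : TF U ι (fun _ => 1) := TF.equiv (Equiv.ofUnique ι Unit) (TF.one (U := U))
  have h2 : w = fun _ => 1 := funext h
  rwa [h2]

/-- The map `y ↦ (w_i y)_i` is a bijection. -/
theorem TF.bijective {ι : Type} {w : ι → U} (h : TF U ι w) :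
    Function.Bijective (fun (y : U) (i : ι) => w i * y) := by
  induction h with
  | one =>
    refine ⟨?_, ?_⟩
    · intro x y hxy
      have := congrFun hxy ()
      simpa using this
    · intro m
      refine ⟨m (), ?_⟩
      funext i
      simp
  | node _ _ ih1 ih2 =>
    refine ⟨?_, ?_⟩
    · intro x y hxy
      apply ext_pr
      · apply ih1.1
        funext i
        have := congrFun hxy (Sum.inl i)
        simpa [mul_assoc] using this
      · apply ih2.1
        funext i
        have := congrFun hxy (Sum.inr i)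
        simpa [mul_assoc] using this
    · intro m
      obtain ⟨a, ha⟩ := ih1.2 (fun i => m (Sum.inl i))
      obtain ⟨b, hb⟩ := ih2.2 (fun i => m (Sum.inr i))
      refine ⟨sig a b, ?_⟩
      funext i
      rcases i with i | i
      · simp only [Sum.elim_inl]
        rw [mul_assoc, pr_sig0]
        exact congrFun ha i
      · simp only [Sum.elim_inr]
        rw [mul_assoc, pr_sig1]
        exact congrFun hb i
  | equiv e _ ih =>
    refine ⟨?_, ?_⟩
    · intro x y hxy
      apply ih.1
      funext i
      have := congrFun hxy (e.symm i)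
      simpa using this
    · intro m
      obtain ⟨a, ha⟩ := ih.2 (fun i => m (e.symm i))
      refine ⟨a, ?_⟩
      funext i
      have := congrFun ha (e i)
      simpa using this

/-- Every family at the leaves of a tree comes from a member of `𝕊(U)`. -/
theorem TF.std {ι : Type} {w : ι → U} (h : TF U ι w) :
    ∃ (D : ℕ) (Φ : (Fin D → U) → U) (τ : Fin D → U), Std U D Φ τ ∧
      ∃ e : ι → Fin D, Function.Bijective e ∧ ∀ i, τ (e i) = w i := by
  induction h with
  | one =>
    refine ⟨1, _, _, Std.unit, fun _ => 0, ?_, fun _ => rfl⟩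
    refine ⟨fun a b _ => Subsingleton.elim a b, fun b => ⟨(), Subsingleton.elim _ _⟩⟩
  | node _ _ ih1 ih2 =>
    obtain ⟨D1, Φ1, τ1, hs1, e1, he1, hw1⟩ := ih1
    obtain ⟨D2, Φ2, τ2, hs2, e2, he2, hw2⟩ := ih2
    let d : Fin 2 → ℕ := ![D1, D2]
    let Φ : ∀ i : Fin 2, (Fin (d i) → U) → U := fun i => match i with
      | 0 => Φ1
      | 1 => Φ2
    let τ : ∀ i : Fin 2, Fin (d i) → U := fun i => match i with
      | 0 => τ1
      | 1 => τ2
    have hst : ∀ i, Std U (d i) (Φ i) (τ i) := fun i => match i with
      | 0 => hs1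
      | 1 => hs2
    refine ⟨_, _, _, Std.comb 2 Sg pr d Φ τ Std.base hst, fun x => finSigmaFinEquiv
      (Sum.elim (fun i => (⟨0, e1 i⟩ : Σ i, Fin (d i))) (fun k => (⟨1, e2 k⟩ : Σ i, Fin (d i))) x),
      ?_, ?_⟩
    · refine (finSigmaFinEquiv (n := d)).bijective.comp ⟨?_, ?_⟩
      · rintro (x | x) (y | y) hxy
        · have h1 : (⟨0, e1 x⟩ : Σ i, Fin (d i)) = ⟨0, e1 y⟩ := hxy
          have h2 := eq_of_heq (Sigma.mk.inj h1).2
          rw [he1.1 h2]
        · have h1 : (0 : Fin 2) = 1 := congrArg Sigma.fst hxy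
          exact absurd h1 (by decide)
        · have h1 : (1 : Fin 2) = 0 := congrArg Sigma.fst hxy
          exact absurd h1 (by decide)
        · have h1 : (⟨1, e2 x⟩ : Σ i, Fin (d i)) = ⟨1, e2 y⟩ := hxy
          have h2 := eq_of_heq (Sigma.mk.inj h1).2
          rw [he2.1 h2]
      · rintro ⟨i, j⟩
        match i, j with
        | 0, j =>
          obtain ⟨x, hx⟩ := he1.2 j
          exact ⟨Sum.inl x, by simp [hx]⟩
        | 1, j =>
          obtain ⟨x, hx⟩ := he2.2 j
          exact ⟨Sum.inr x, by simp [hx]⟩
    · have key : ∀ p : (Σ i, Fin (d i)), τ (finSigmaFinEquiv.symm (finSigmaFinEquiv p)).1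
          (finSigmaFinEquiv.symm (finSigmaFinEquiv p)).2 *
          pr (finSigmaFinEquiv.symm (finSigmaFinEquiv p)).1 = τ p.1 p.2 * pr p.1 := by
        intro p
        rw [Equiv.symm_apply_apply]
      rintro (x | x)
      · refine (key _).trans ?_
        show τ1 (e1 x) * pr 0 = _
        rw [hw1]
        rfl
      · refine (key _).trans ?_
        show τ2 (e2 x) * pr 1 = _
        rw [hw2]
        rfl
  | equiv e _ ih =>
    obtain ⟨D, Φ, τ, hs, e', he', hw⟩ := ih
    exact ⟨D, Φ, τ, hs, fun k => e' (e k), he'.comp e.bijective, fun i => hw _⟩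

/-- An element which permutes the elements at the leaves of a tree lies in one of the images. -/
theorem perm_mem {ι : Type} {w : ι → U} (h : TF U ι w) (h2 : Nontrivial ι) (g : Uˣ)
    (σ : ι → ι) (hσ : Function.Bijective σ) (hg : ∀ i, w i * g = w (σ i)) : g ∈ images U := by
  obtain ⟨D, Φ, τ, hs, e, he, hw⟩ := h.std
  let e' : ι ≃ Fin D := Equiv.ofBijective e he
  let σ' : Equiv.Perm ι := Equiv.ofBijective σ hσ
  have hD : 2 ≤ D := by
    have : Nontrivial (Fin D) := e'.symm.nontrivial
    have h3 := Fintype.one_lt_card_iff_nontrivial.mpr this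
    rw [Fintype.card_fin] at h3
    exact h3
  refine ⟨D, Φ, τ, (e'.symm.trans (σ'.trans e'))⁻¹, hD, hs, ?_⟩
  rw [inv_inv]
  conv_lhs => rw [← (std_prop hs).2 (g : U)]
  congr 1
  funext k
  have h4 : τ k = w (e'.symm k) := by
    rw [← hw]
    congr 1
    exact (e'.apply_symm_apply k).symm
  rw [h4, hg, ← hw]
  rfl


/-! ### Normal forms of the elements of `U` -/

/-- The element of the path `l` in the binary tree, `π_{b_n} ⋯ π_{b_1}` for `l = [b_1, …, b_n]`. -/
def wd : List (Fin 2) → U
  | [] => 1
  | b :: l => wd l * pr b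

theorem pr_wd (b : Fin 2) (l : List (Fin 2)) : pr b * (wd l : U) = wd (l ++ [b]) := by
  induction l with
  | nil => simp [wd]
  | cons c l ih => rw [List.cons_append, wd, wd, ← mul_assoc, ih]

/-- Normal forms. -/
inductive Nf (U : Type u) [CPMonoid U] : U → Prop
  | word (l : List (Fin 2)) : Nf U (wd l)
  | sg {a b : U} : Nf U a → Nf U b → Nf U (sig a b)

theorem Nf.pr_mul {x : U} (h : Nf U x) (b : Fin 2) : Nf U (pr b * x) := by
  cases h with
  | word l => rw [pr_wd]; exact Nf.word _
  | sg ha hb =>
    fin_cases b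
    · show Nf U (pr 0 * _)
      rw [pr_sig0]; exact ha
    · show Nf U (pr 1 * _)
      rw [pr_sig1]; exact hb

theorem Nf.wd_mul (l : List (Fin 2)) : ∀ {x : U}, Nf U x → Nf U (wd l * x) := by
  induction l with
  | nil => intro x h; rw [wd, one_mul]; exact h
  | cons c l ih => intro x h; rw [wd, mul_assoc]; exact ih (h.pr_mul c)

theorem Nf.mul {x y : U} (hx : Nf U x) (hy : Nf U y) : Nf U (x * y) := by
  induction hx with
  | word l => exact Nf.wd_mul (x := y) l hy
  | sg _ _ ih1 ih2 => rw [sig_mul]; exact Nf.sg ih1 ih2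

theorem Nf.one : Nf U 1 := Nf.word []

theorem Nf.pr (b : Fin 2) : Nf U (pr b) := by
  have := (Nf.one (U := U)).pr_mul b
  rwa [mul_one] at this

theorem Nf.Sg (m : Fin 2 → U) (h : ∀ i, Nf U (m i)) : Nf U (Sg m) := by
  have h1 : m = ![m 0, m 1] := by
    funext i
    fin_cases i <;> rfl
  rw [h1]
  exact Nf.sg (h 0) (h 1)

/-- The submonoid of the normal forms. -/
def nfSub (U : Type u) [CPMonoid U] : Submonoid U where
  carrier := {x | Nf U x}
  mul_mem' := fun ha hb => Nf.mul ha hb
  one_mem' := Nf.one

noncomputable instance : CPMonoid (nfSub U) where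
  Sg := fun m => ⟨Sg fun i => (m i).1, Nf.Sg _ fun i => (m i).2⟩
  pr := fun i => ⟨pr i, Nf.pr i⟩
  isCP := by
    refine ⟨⟨?_, ?_⟩, ?_⟩
    · intro m m' h
      have h1 : Sg (fun i => (m i).1) = Sg (fun i => (m' i).1) := congrArg Subtype.val h
      have h2 := (isCP (M := U)).1.1 h1
      funext i
      exact Subtype.ext (congrFun h2 i)
    · rintro ⟨y, hy⟩
      refine ⟨fun i => ⟨pr i * y, Nf.pr_mul hy i⟩, ?_⟩
      apply Subtype.ext
      exact Sg_pr y
    · intro m i
      apply Subtype.ext
      exact pr_Sg (fun i => (m i).1) i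

theorem nf_all (hU : IsUniversal U) (x : U) : Nf U x := by
  obtain ⟨f, -, -⟩ := hU (nfSub U)
  obtain ⟨g, -, hg⟩ := hU U
  let i1 : CPHom U U :=
    { toFun := fun y => (f.toMonoidHom y).1
      map_one' := by rw [map_one]; rfl
      map_mul' := fun a b => by rw [map_mul]; rfl
      map_pr := fun i => by
        have := f.map_pr i
        exact congrArg Subtype.val this
      map_Sg := fun m => by
        have := f.map_Sg m
        exact congrArg Subtype.val this }
  let i2 : CPHom U U :=
    { toFun := fun y => y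
      map_one' := rfl
      map_mul' := fun a b => rfl
      map_pr := fun i => rfl
      map_Sg := fun m => rfl }
  have h1 : i1 = i2 := (hg i1 trivial).trans (hg i2 trivial).symm
  have h2 : (f.toMonoidHom x).1 = x := by
    have h3 : i1.toMonoidHom x = i2.toMonoidHom x := by rw [h1]
    exact h3
  rw [← h2]
  exact (f.toMonoidHom x).2

theorem Nf.exists_tree {x : U} (h : Nf U x) :
    ∃ (ι : Type) (w : ι → U), TF U ι w ∧ ∃ l : ι → List (Fin 2), ∀ i, w i * x = wd (l i) := by
  induction h with
  | word l => exact ⟨Unit, _, TF.one, fun _ => l, fun _ => one_mul _⟩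
  | sg _ _ ih1 ih2 =>
    obtain ⟨ι, w, hw, l, hl⟩ := ih1
    obtain ⟨κ, v, hv, l', hl'⟩ := ih2
    refine ⟨ι ⊕ κ, _, TF.node hw hv, Sum.elim l l', ?_⟩
    rintro (i | i)
    · simp only [Sum.elim_inl]
      rw [mul_assoc, pr_sig0]
      exact hl i
    · simp only [Sum.elim_inr]
      rw [mul_assoc, pr_sig1]
      exact hl' i

/-! ### Reindexing -/

theorem TF.of_bij {ι κ : Type} {w : ι → U} {w' : κ → U} (h : TF U ι w) (f : ι → κ)
    (hf : Function.Bijective f) (hw : ∀ i, w' (f i) = w i) : TF U κ w' := by
  have h1 := TF.equiv (Equiv.ofBijective f hf).symm h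
  have h2 : (fun k => w ((Equiv.ofBijective f hf).symm k)) = w' := by
    funext k
    rw [← hw]
    congr 1
    exact (Equiv.ofBijective f hf).apply_symm_apply k
  rwa [h2] at h1

theorem TF.eq_one {ι : Type} {w : ι → U} (h : TF U ι w) : Subsingleton ι → ∀ i, w i = 1 := by
  induction h with
  | one => intro _ _; rfl
  | node h1 h2 _ _ =>
    intro hs
    have := hs.elim (Sum.inl h1.nonempty.some) (Sum.inr h2.nonempty.some)
    simp at this
  | equiv e _ ih =>
    intro hs k
    have : Subsingleton _ := e.symm.subsingleton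
    exact ih this _

/-! ### Complete codes come from trees -/

theorem wd_cons {l : List (Fin 2)} (h : l ≠ []) : (wd l : U) = wd l.tail * pr (l.headD 0) := by
  cases l with
  | nil => exact absurd rfl h
  | cons b l => rfl

theorem fin2_eq_one {b : Fin 2} (h : b ≠ 0) : b = 1 := by
  fin_cases b
  · exact absurd rfl h
  · rfl

/-- If one of the words is empty. -/
theorem code_nil [Nontrivial U] {ι : Type} (l : ι → List (Fin 2))
    (hb : Function.Bijective (fun (y : U) (i : ι) => wd (l i) * y)) (i : ι) (hi : l i = []) :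
    TF U ι (fun i => wd (l i)) := by
  classical
  have hs : ∀ j, j = i := by
    intro j
    by_contra hj
    obtain ⟨z, hz⟩ := exists_ne (wd (l j) : U)
    obtain ⟨y, hy⟩ := hb.2 (fun k => if k = i then 1 else z)
    have h1 := congrFun hy i
    have h2 := congrFun hy j
    simp only [hi, wd, one_mul, if_true] at h1
    simp only [if_neg hj] at h2
    rw [h1, mul_one] at h2
    exact hz h2.symm
  have : Unique ι := ⟨⟨i⟩, hs⟩
  refine TF.of_unique _ ?_
  intro j
  rw [hs j, hi, wd]

theorem code_tree [Nontrivial U] (N : ℕ) : ∀ (ι : Type) (l : ι → List (Fin 2)),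
    (∀ i, (l i).length ≤ N) → Function.Bijective (fun (y : U) (i : ι) => wd (l i) * y) →
    TF U ι (fun i => wd (l i)) := by
  classical
  induction N with
  | zero =>
    intro ι l hl hb
    have hne : Nonempty ι := by
      by_contra hem
      rw [not_nonempty_iff] at hem
      obtain ⟨x, y, hxy⟩ := exists_pair_ne U
      exact hxy (hb.1 (funext fun i => (hem.false i).elim))
    obtain ⟨i⟩ := hne
    exact code_nil l hb i (List.length_eq_zero_iff.mp (Nat.le_zero.mp (hl i)))
  | succ N ih =>
    intro ι l hl hb
    by_cases hnil : ∃ i, l i = []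
    · obtain ⟨i, hi⟩ := hnil
      exact code_nil l hb i hi
    · push Not at hnil
      have key0 : ∀ i, (l i).headD 0 = 0 → ∀ y : U, wd (l i) * y = wd (l i).tail * (pr 0 * y) := by
        intro i hi y
        rw [wd_cons (hnil i), hi, mul_assoc]
      have key1 : ∀ i, ¬ (l i).headD 0 = 0 → ∀ y : U,
          wd (l i) * y = wd (l i).tail * (pr 1 * y) := by
        intro i hi y
        rw [wd_cons (hnil i), fin2_eq_one hi, mul_assoc]
      have hlen : ∀ i, (l i).tail.length ≤ N := by
        intro i
        have := hl i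
        rw [List.length_tail]
        omega
      have h0 := ih {i // (l i).headD 0 = 0} (fun i => (l i.1).tail) (fun i => hlen i.1) (by
        refine ⟨?_, ?_⟩
        · intro a a' haa
          have h1 : sig a 1 = sig a' 1 := by
            apply hb.1
            funext i
            by_cases hi : (l i).headD 0 = 0
            · show wd (l i) * sig a 1 = wd (l i) * sig a' 1
              rw [key0 i hi, key0 i hi, pr_sig0, pr_sig0]
              exact congrFun haa ⟨i, hi⟩
            · show wd (l i) * sig a 1 = wd (l i) * sig a' 1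
              rw [key1 i hi, key1 i hi, pr_sig1, pr_sig1]
          rw [← pr_sig0 a 1, h1, pr_sig0]
        · intro m
          obtain ⟨y, hy⟩ := hb.2 (fun i => if h : (l i).headD 0 = 0 then m ⟨i, h⟩ else 1)
          refine ⟨pr 0 * y, ?_⟩
          funext i
          have h1 := congrFun hy i.1
          simp only [dif_pos i.2] at h1
          rw [key0 i.1 i.2] at h1
          exact h1)
      have h1 := ih {i // ¬ (l i).headD 0 = 0} (fun i => (l i.1).tail) (fun i => hlen i.1) (by
        refine ⟨?_, ?_⟩
        · intro a a' haa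
          have h1 : sig 1 a = sig 1 a' := by
            apply hb.1
            funext i
            by_cases hi : (l i).headD 0 = 0
            · show wd (l i) * sig 1 a = wd (l i) * sig 1 a'
              rw [key0 i hi, key0 i hi, pr_sig0, pr_sig0]
            · show wd (l i) * sig 1 a = wd (l i) * sig 1 a'
              rw [key1 i hi, key1 i hi, pr_sig1, pr_sig1]
              exact congrFun haa ⟨i, hi⟩
          rw [← pr_sig1 1 a, h1, pr_sig1]
        · intro m
          obtain ⟨y, hy⟩ := hb.2 (fun i => if h : (l i).headD 0 = 0 then 1 else m ⟨i, h⟩)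
          refine ⟨pr 1 * y, ?_⟩
          funext i
          have h1 := congrFun hy i.1
          simp only [dif_neg i.2] at h1
          rw [key1 i.1 i.2] at h1
          exact h1)
      refine (TF.node h0 h1).of_bij (Equiv.sumCompl (fun i => (l i).headD 0 = 0))
        (Equiv.sumCompl _).bijective ?_
      rintro (⟨i, hi⟩ | ⟨i, hi⟩)
      · show wd (l i) = wd (l i).tail * pr 0
        rw [← mul_one (wd (l i)), key0 i hi, mul_one]
      · show wd (l i) = wd (l i).tail * pr 1
        rw [← mul_one (wd (l i)), key1 i hi, mul_one]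

/-! ### Carets -/

open Classical in
theorem TF.caret {ι : Type} {w : ι → U} (h : TF U ι w) : ¬ Subsingleton ι →
    ∃ i j : ι, i ≠ j ∧ ∃ c : U, w i = pr 0 * c ∧ w j = pr 1 * c ∧
      TF U {x : ι // x ≠ j} (fun x => if x.1 = i then c else w x.1) := by
  induction h with
  | one => intro hs; exact absurd (inferInstance : Subsingleton Unit) hs
  | @node ι κ w v hw hv ih1 ih2 =>
    intro _
    by_cases h1 : Subsingleton ι
    · by_cases h2 : Subsingleton κ
      · obtain ⟨i⟩ := hw.nonempty
        obtain ⟨k⟩ := hv.nonempty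
        refine ⟨Sum.inl i, Sum.inr k, by simp, 1, ?_, ?_, ?_⟩
        · simp [hw.eq_one h1 i]
        · simp [hv.eq_one h2 k]
        · have hall : ∀ x : {x : ι ⊕ κ // x ≠ Sum.inr k}, x.1 = Sum.inl i := by
            rintro ⟨x | x, hx⟩
            · exact congrArg Sum.inl (h1.elim x i)
            · exact absurd (congrArg Sum.inr (h2.elim x k)) hx
          have : Unique {x : ι ⊕ κ // x ≠ Sum.inr k} :=
            ⟨⟨⟨Sum.inl i, by simp⟩⟩, fun x => Subtype.ext (hall x)⟩
          refine TF.of_unique _ ?_
          intro x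
          rw [if_pos (hall x)]
      · obtain ⟨i, j, hij, c, hi, hj, hc⟩ := ih2 h2
        refine ⟨Sum.inr i, Sum.inr j, by simpa using hij, c * pr 1, ?_, ?_, ?_⟩
        · simp only [Sum.elim_inr]; rw [hi, mul_assoc]
        · simp only [Sum.elim_inr]; rw [hj, mul_assoc]
        · refine (TF.node hw hc).of_bij (Sum.elim (fun x => ⟨Sum.inl x, by simp⟩)
            (fun x => ⟨Sum.inr x.1, by simpa using x.2⟩)) ⟨?_, ?_⟩ ?_
          · rintro (x | x) (y | y) hxy
            · simpa using hxy
            · simp at hxy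
            · simp at hxy
            · simp only [Sum.elim_inr, Subtype.mk.injEq, Sum.inr.injEq] at hxy
              rw [Subtype.ext hxy]
          · rintro ⟨x | x, hx⟩
            · exact ⟨Sum.inl x, rfl⟩
            · exact ⟨Sum.inr ⟨x, by simpa using hx⟩, rfl⟩
          · rintro (x | x)
            · simp
            · simp only [Sum.elim_inr, Sum.inr.injEq]
              split_ifs <;> rfl
    · obtain ⟨i, j, hij, c, hi, hj, hc⟩ := ih1 h1
      refine ⟨Sum.inl i, Sum.inl j, by simpa using hij, c * pr 0, ?_, ?_, ?_⟩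
      · simp only [Sum.elim_inl]; rw [hi, mul_assoc]
      · simp only [Sum.elim_inl]; rw [hj, mul_assoc]
      · refine (TF.node hc hv).of_bij (Sum.elim (fun x => ⟨Sum.inl x.1, by simpa using x.2⟩)
          (fun x => ⟨Sum.inr x, by simp⟩)) ⟨?_, ?_⟩ ?_
        · rintro (x | x) (y | y) hxy
          · simp only [Sum.elim_inl, Subtype.mk.injEq, Sum.inl.injEq] at hxy
            rw [Subtype.ext hxy]
          · simp at hxy
          · simp at hxy
          · simpa using hxy
        · rintro ⟨x | x, hx⟩
          · exact ⟨Sum.inl ⟨x, by simpa using hx⟩, rfl⟩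
          · exact ⟨Sum.inr x, rfl⟩
        · rintro (x | x)
          · simp only [Sum.elim_inl, Sum.inl.injEq]
            split_ifs <;> rfl
          · simp
  | @equiv ι κ w e hw ih =>
    intro hs
    have h1 : ¬ Subsingleton ι := fun h => hs (e.subsingleton)
    obtain ⟨i, j, hij, c, hi, hj, hc⟩ := ih h1
    refine ⟨e.symm i, e.symm j, fun h => hij (e.symm.injective h), c, by simpa using hi,
      by simpa using hj, ?_⟩
    refine hc.of_bij (fun x => ⟨e.symm x.1, fun h => x.2 (e.symm.injective h)⟩) ⟨?_, ?_⟩ ?_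
    · rintro ⟨x, hx⟩ ⟨y, hy⟩ hxy
      simp only [Subtype.mk.injEq] at hxy
      apply Subtype.ext
      exact e.symm.injective hxy
    · rintro ⟨x, hx⟩
      refine ⟨⟨e x, ?_⟩, ?_⟩
      · intro h
        exact hx (by rw [← h, e.symm_apply_apply])
      · simp
    · rintro ⟨x, hx⟩
      simp

/-- Permutations of the leaves of a tree. -/
theorem TF.perm {ι : Type} {w : ι → U} (h : TF U ι w) (σ : Equiv.Perm ι) :
    ∃ p : Uˣ, ∀ i, w i * p = w (σ i) := by
  obtain ⟨a, ha⟩ := h.bijective.2 (fun i => w (σ i))
  obtain ⟨b, hb⟩ := h.bijective.2 (fun i => w (σ.symm i))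
  have ha' : ∀ i, w i * a = w (σ i) := congrFun ha
  have hb' : ∀ i, w i * b = w (σ.symm i) := congrFun hb
  refine ⟨⟨a, b, ?_, ?_⟩, ha'⟩
  · apply h.bijective.1
    funext i
    show w i * (a * b) = w i * 1
    rw [← mul_assoc, ha', hb', mul_one, Equiv.symm_apply_apply]
  · apply h.bijective.1
    funext i
    show w i * (b * a) = w i * 1
    rw [← mul_assoc, hb', ha', mul_one, Equiv.apply_symm_apply]

/-- The main induction. -/
theorem main_ind (n : ℕ) : ∀ (ι κ : Type) (w : ι → U) (w' : κ → U) (e : ι ≃ κ) (g : Uˣ),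
    TF U ι w → TF U κ w' → Nat.card ι = n → (∀ i, w i * g = w' (e i)) →
    g ∈ Subgroup.closure (images U) := by
  classical
  induction n with
  | zero =>
    intro ι κ w w' e g h h' hn _
    have := h.finite
    have := h.nonempty
    have := Nat.card_pos (α := ι)
    omega
  | succ n ih =>
    intro ι κ w w' e g h h' hn hg
    have hfin := h.finite
    by_cases hs : Subsingleton ι
    · obtain ⟨i⟩ := h.nonempty
      have hs' : Subsingleton κ := e.symm.subsingleton
      have h1 := hg i
      rw [h.eq_one hs, h'.eq_one hs', one_mul] at h1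
      have h2 : g = 1 := Units.ext h1
      rw [h2]
      exact one_mem _
    · have hs' : ¬ Subsingleton κ := fun h => hs e.subsingleton
      obtain ⟨i, j, hij, c, hi, hj, hc⟩ := h.caret hs
      obtain ⟨i', j', hij', c', hi', hj', hc'⟩ := h'.caret hs'
      let σ : Equiv.Perm κ := (Equiv.swap (e i) i').trans
        (Equiv.swap (Equiv.swap (e i) i' (e j)) j')
      have hne : Equiv.swap (e i) i' (e j) ≠ i' := by
        intro hh
        have h1 : Equiv.swap (e i) i' (e j) = Equiv.swap (e i) i' (e i) := by
          rw [hh, Equiv.swap_apply_left]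
        exact hij (e.injective ((Equiv.swap (e i) i').injective h1)).symm
      have hσi : σ (e i) = i' := by
        show Equiv.swap (Equiv.swap (e i) i' (e j)) j' (Equiv.swap (e i) i' (e i)) = i'
        rw [Equiv.swap_apply_left]
        exact Equiv.swap_apply_of_ne_of_ne hne.symm hij'
      have hσj : σ (e j) = j' := by
        show Equiv.swap (Equiv.swap (e i) i' (e j)) j' (Equiv.swap (e i) i' (e j)) = j'
        rw [Equiv.swap_apply_left]
      obtain ⟨p, hp⟩ := h'.perm σ
      have hpm : p ∈ Subgroup.closure (images U) := Subgroup.subset_closure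
        (perm_mem h' (not_subsingleton_iff_nontrivial.mp hs') p σ σ.bijective hp)
      have hgp : g * p ∈ Subgroup.closure (images U) := by
        have hgp' : ∀ x, w x * (g * p : Uˣ) = w' (σ (e x)) := by
          intro x
          rw [Units.val_mul, ← mul_assoc, hg, hp]
        have hcc : c * (g * p : Uˣ) = c' := by
          apply ext_pr
          · rw [← mul_assoc, ← hi, hgp', hσi, hi']
          · rw [← mul_assoc, ← hj, hgp', hσj, hj']
        let e' : {x : ι // x ≠ j} ≃ {y : κ // y ≠ j'} := (e.trans σ).subtypeEquiv (by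
          intro x
          rw [not_iff_not]
          constructor
          · intro hx
            rw [hx]
            exact hσj
          · intro hx
            have h1 : σ (e x) = σ (e j) := hx.trans hσj.symm
            exact e.injective (σ.injective h1))
        refine ih _ _ _ _ e' (g * p) hc hc' ?_ ?_
        · have h1 : Nat.card {x : ι // x ≠ j} + 1 = Nat.card ι := by
            have := Fintype.ofFinite ι
            rw [Nat.card_eq_fintype_card, Nat.card_eq_fintype_card, Fintype.card_subtype_compl]
            simp only [Fintype.card_unique]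
            have : 0 < Fintype.card ι := Fintype.card_pos_iff.mpr ⟨j⟩
            omega
          omega
        · rintro ⟨x, hx⟩
          show (if x = i then c else w x) * _ = if σ (e x) = i' then c' else w' (σ (e x))
          by_cases hxi : x = i
          · rw [if_pos hxi, hxi, if_pos hσi]
            exact hcc
          · rw [if_neg hxi, if_neg, hgp']
            intro hh
            exact hxi (e.injective (σ.injective (hh.trans hσi.symm)))
      have := mul_mem hgp (inv_mem hpm)
      rwa [mul_inv_cancel_right] at this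

/-- **Q1 of MP_6189ff.** The unit group of the universal CP monoid `U` is generated by the images
of the symmetric groups for the members of `𝕊(U)`. -/
theorem result (U : Type u) [CPMonoid U] (hU : IsUniversal U) :
    Subgroup.closure (images U) = ⊤ := by
  rw [eq_top_iff]
  intro g _
  rcases subsingleton_or_nontrivial U with hs | hs
  · have h1 : g = 1 := Units.ext (hs.elim _ _)
    rw [h1]
    exact one_mem _
  · obtain ⟨ι, w, hw, l, hl⟩ := (nf_all hU (g : U)).exists_tree
    have hfin := hw.finite
    have h1 : TF U ι (fun i => wd (l i)) := by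
      obtain ⟨N, hN⟩ := Finite.exists_le (fun i => (l i).length)
      refine code_tree N ι l hN ?_
      have h2 : (fun (y : U) (i : ι) => wd (l i) * y) =
          (fun (y : U) (i : ι) => w i * y) ∘ (fun y => (g : U) * y) := by
        funext y i
        show wd (l i) * y = w i * (g * y)
        rw [← hl, mul_assoc]
      rw [h2]
      exact hw.bijective.comp (Units.mulLeft_bijective g)
    exact main_ind _ ι ι w _ (Equiv.refl ι) g hw h1 rfl hl

end

end Pool.Agent.Results.MP_6189ff_al.UnitsGenerated
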